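import Pool.Agent.N658.FF.Stm2

/-! # B4. Blocks on the torus

Project FF (helper658); this file by helper152. -/

set_option autoImplicit false

open scoped BigOperators InnerProductSpace Matrix Classical ComplexOrder

noncomputable section

namespace Pool.Agent.N152.FF

open Pool.Agent.TH235.PP Pool.Agent.N658.FF

/-- the block of a coordinate -/
def bl (L s : ℕ) (x : ZMod L) : ZMod (L / s) := ((min (x.val / s) (L / s - 1) : ℕ) : ZMod (L / s))

/-- the corner of the hole of the block `f` -/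
def c1 (L s : ℕ) (f : ZMod (L / s)) : ZMod L := (((f - 11).val * s : ℕ) : ZMod L)

theorem facts {L s : ℕ} (hs : 1 ≤ s) (hL : 60 * s ≤ L) :
    60 ≤ L / s ∧ L / s * s ≤ L ∧ L < (L / s + 1) * s := by
  refine ⟨(Nat.le_div_iff_mul_le hs).2 hL, Nat.div_mul_le_self L s, ?_⟩
  have h1 := Nat.div_add_mod L s
  have h2 := Nat.mod_lt L hs
  calc L = s * (L / s) + L % s := h1.symm
    _ < s * (L / s) + s := by omega
    _ = (L / s + 1) * s := by ring

theorem quot {x s : ℕ} (hs : 1 ≤ s) : x / s * s ≤ x ∧ x < (x / s + 1) * s := by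
  refine ⟨Nat.div_mul_le_self x s, ?_⟩
  have h1 := Nat.div_add_mod x s
  have h2 := Nat.mod_lt x hs
  calc x = s * (x / s) + x % s := h1.symm
    _ < s * (x / s) + s := by omega
    _ = (x / s + 1) * s := by ring

/-- neighbouring coordinates lie in neighbouring blocks -/
theorem lemA {L s : ℕ} [NeZero L] (hs : 1 ≤ s) (hL : 60 * s ≤ L) (x : ZMod L) (z : ℤ)
    (hz : |z| < s) : ∃ e : ℤ, |e| ≤ 1 ∧
      bl L s (x + (z : ZMod L)) = bl L s x + (e : ZMod (L / s)) := by
  obtain ⟨hq, hq1, hq2⟩ := facts hs hL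
  set q := L / s with hqd
  set y : ZMod L := x + (z : ZMod L) with hy
  have hX := ZMod.val_lt x
  have hY := ZMod.val_lt y
  have hcong : (((x.val : ℤ) + z : ℤ) : ZMod L) = ((y.val : ℤ) : ZMod L) := by
    push_cast
    rw [ZMod.natCast_zmod_val, ZMod.natCast_zmod_val, hy]
  have hdvd := (ZMod.intCast_eq_intCast_iff_dvd_sub _ _ _).1 hcong.symm
  obtain ⟨k, hk⟩ := hdvd
  have hz' := abs_lt.1 hz
  have hLpos : (0 : ℤ) < L := by exact_mod_cast lt_of_lt_of_le (by omega : 0 < 60 * s) hL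
  have hX' : (x.val : ℤ) < L := by exact_mod_cast hX
  have hY' : (y.val : ℤ) < L := by exact_mod_cast hY
  have hsL : (s : ℤ) ≤ L := by exact_mod_cast (by omega : s ≤ L)
  have hX0 : (0 : ℤ) ≤ x.val := Int.natCast_nonneg _
  have hY0 : (0 : ℤ) ≤ y.val := Int.natCast_nonneg _
  have hk1 : k < 2 := by
    by_contra h
    push Not at h
    nlinarith
  have hk2 : -2 < k := by
    by_contra h
    push Not at h
    nlinarith
  obtain ⟨qx1, qx2⟩ := quot (x := x.val) hs
  obtain ⟨qy1, qy2⟩ := quot (x := y.val) hs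
  have hqs : (q - 1) * s + s ≤ L := by
    have : (q - 1) * s + s = q * s := by
      obtain ⟨p, hp⟩ : ∃ p, q = p + 1 := ⟨q - 1, by omega⟩
      rw [hp, Nat.add_sub_cancel]
      ring
    omega
  have key : ∃ e : ℤ, |e| ≤ 1 ∧ ∃ m : ℤ, ((min (y.val / s) (q - 1) : ℕ) : ℤ) =
      ((min (x.val / s) (q - 1) : ℕ) : ℤ) + e + m * q := by
    interval_cases k
    · -- `k = -1`
      have h1 : (x.val : ℤ) < s := by omega
      have h2 : x.val / s = 0 := Nat.div_eq_of_lt (by exact_mod_cast h1)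
      have h3 : q - 1 ≤ y.val / s := by
        rw [Nat.le_div_iff_mul_le hs]
        omega
      refine ⟨-1, by norm_num, 1, ?_⟩
      rw [min_eq_right h3, h2, Nat.zero_min]
      omega
    · have h1 : (y.val : ℤ) = x.val + z := by omega
      have h2 : y.val / s < x.val / s + 2 := by
        apply Nat.lt_of_mul_lt_mul_right (a := s)
        have e1 : (x.val / s + 2) * s = (x.val / s + 1) * s + s := by ring
        omega
      have h3 : x.val / s < y.val / s + 2 := by
        apply Nat.lt_of_mul_lt_mul_right (a := s)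
        have e1 : (y.val / s + 2) * s = (y.val / s + 1) * s + s := by ring
        omega
      refine ⟨((min (y.val / s) (q - 1) : ℕ) : ℤ) - ((min (x.val / s) (q - 1) : ℕ) : ℤ), ?_, 0,
        by ring⟩
      rw [abs_le]
      constructor <;> omega
    · have h1 : (y.val : ℤ) < s := by omega
      have h2 : y.val / s = 0 := Nat.div_eq_of_lt (by exact_mod_cast h1)
      have h3 : q - 1 ≤ x.val / s := by
        rw [Nat.le_div_iff_mul_le hs]
        omega
      refine ⟨1, by norm_num, -1, ?_⟩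
      rw [min_eq_right h3, h2, Nat.zero_min]
      omega
  obtain ⟨e, he, m, hm⟩ := key
  refine ⟨e, he, ?_⟩
  unfold bl
  rw [← hqd]
  have h1 := congrArg (fun t : ℤ => (t : ZMod q)) hm
  simp only [Int.cast_add, Int.cast_mul, Int.cast_natCast, ZMod.natCast_self, mul_zero,
    add_zero] at h1
  exact h1

theorem lemB' {L s q : ℕ} [NeZero L] (hs : 1 ≤ s) (hq : 60 ≤ q) (hq1 : q * s ≤ L)
    (hq2 : L < (q + 1) * s) (x : ZMod L) (f : ZMod q) (e : ℤ) (he : |e| ≤ 11)
    (h : ((min (x.val / s) (q - 1) : ℕ) : ZMod q) = f + (e : ZMod q)) :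
    ∃ y : Fin (60 * s), x = (((f - 11).val * s : ℕ) : ZMod L) + (((y : ℕ) : ZMod L)) := by
  have hne : NeZero q := ⟨by omega⟩
  have ha := ZMod.val_lt (f - 11)
  set a := (f - 11).val with had
  set b := min (x.val / s) (q - 1) with hb
  have hX := ZMod.val_lt x
  obtain ⟨qx1, qx2⟩ := quot (x := x.val) hs
  have hcong : ((b : ℤ) : ZMod q) = (((a : ℤ) + (e + 11) : ℤ) : ZMod q) := by
    push_cast
    rw [had, ZMod.natCast_zmod_val, h]
    ring
  obtain ⟨k, hk⟩ := (ZMod.intCast_eq_intCast_iff_dvd_sub _ _ _).1 hcong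
  have he' := abs_le.1 he
  have hbq : b < q := by omega
  have hbq' : (b : ℤ) < q := by exact_mod_cast hbq
  have ha' : (a : ℤ) < q := by exact_mod_cast ha
  have hq' : (60 : ℤ) ≤ q := by exact_mod_cast hq
  have hk1 : k < 2 := by
    by_contra h
    push Not at h
    nlinarith
  have hk2 : -1 < k := by
    by_contra h
    push Not at h
    nlinarith
  -- the coordinate
  have hx1 : b * s ≤ x.val := (Nat.mul_le_mul_right s (min_le_left _ _)).trans qx1
  have hx2 : x.val < (b + 2) * s := by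
    rcases min_choice (x.val / s) (q - 1) with h1 | h1
    · have h2 : b = x.val / s := h1
      rw [h2]
      have e1 : (x.val / s + 2) * s = (x.val / s + 1) * s + s := by ring
      omega
    · have h2 : b + 2 = q + 1 := by
        have : b = q - 1 := h1
        omega
      rw [h2]
      omega
  have hcast : ∀ y : ℕ, a * s + y = x.val ∨ a * s + y = x.val + L →
      x = ((a * s : ℕ) : ZMod L) + ((y : ℕ) : ZMod L) := by
    intro y hy
    rw [← Nat.cast_add]
    rcases hy with hy | hy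
    · rw [hy, ZMod.natCast_zmod_val]
    · rw [hy, Nat.cast_add, ZMod.natCast_self, add_zero, ZMod.natCast_zmod_val]
  interval_cases k
  · have h1 : (b : ℤ) = a + (e + 11) := by omega
    have h2 : a ≤ b := by omega
    have h3 : b ≤ a + 22 := by omega
    have h4 : a * s ≤ x.val := (Nat.mul_le_mul_right s h2).trans hx1
    have h5 : (b + 2) * s ≤ (a + 24) * s := Nat.mul_le_mul_right s (by omega)
    have h6 : (a + 24) * s = a * s + 24 * s := by ring
    exact ⟨⟨x.val - a * s, by omega⟩, hcast (x.val - a * s) (Or.inl (by omega))⟩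
  · have h1 : (b : ℤ) = a + (e + 11) - q := by omega
    have h3 : b + q ≤ a + 22 := by omega
    have h4 : a * s ≤ q * s := Nat.mul_le_mul_right s ha.le
    have h5 : (b + 2) * s + (q + 1) * s ≤ (a + 25) * s := by
      rw [← Nat.add_mul]
      exact Nat.mul_le_mul_right s (by omega)
    have h6 : (a + 25) * s = a * s + 25 * s := by ring
    exact ⟨⟨x.val + L - a * s, by omega⟩, hcast (x.val + L - a * s) (Or.inr (by omega))⟩

/-- the coordinates of the hole -/
theorem lemB {L s : ℕ} [NeZero L] (hs : 1 ≤ s) (hL : 60 * s ≤ L) (x : ZMod L)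
    (f : ZMod (L / s)) (e : ℤ) (he : |e| ≤ 11) (h : bl L s x = f + (e : ZMod (L / s))) :
    ∃ y : Fin (60 * s), x = c1 L s f + (((y : ℕ) : ZMod L)) := by
  obtain ⟨hq, hq1, hq2⟩ := facts hs hL
  exact lemB' hs hq hq1 hq2 x f e he h

theorem mem_Nb {R L : ℕ} [NeZero L] (hR : 1 ≤ R) (r : ℕ) (S : Finset (Site L)) (v : Site L)
    (h : v ∈ Nb (adjR R L) r S) : ∃ u ∈ S, ∃ z₁ z₂ : ℤ, |z₁| ≤ r * ((R : ℤ) - 1) ∧
      |z₂| ≤ r * ((R : ℤ) - 1) ∧ v = (u.1 + (z₁ : ZMod L), u.2 + (z₂ : ZMod L)) := by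
  induction r generalizing v with
  | zero => exact ⟨v, h, 0, 0, by simp, by simp, by simp⟩
  | succ r ih =>
    unfold Nb at h
    rw [Finset.mem_union, Finset.mem_filter] at h
    rcases h with h | ⟨-, x, hx, a, b, hab⟩
    · obtain ⟨u, hu, z₁, z₂, h1, h2, h3⟩ := ih v h
      have hR' : (1 : ℤ) ≤ R := by exact_mod_cast hR
      exact ⟨u, hu, z₁, z₂, by push_cast; nlinarith, by push_cast; nlinarith, h3⟩
    · obtain ⟨u, hu, z₁, z₂, h1, h2, h3⟩ := ih x hx
      have e1 := congrArg Prod.fst hab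
      have e2 := congrArg Prod.snd hab
      simp only [sh] at e1 e2
      have ha1 := a.1.2
      have ha2 := a.2.2
      have hb1 := b.1.2
      have hb2 := b.2.2
      refine ⟨u, hu, z₁ + ((a.1 : ℕ) : ℤ) - ((b.1 : ℕ) : ℤ),
        z₂ + ((a.2 : ℕ) : ℤ) - ((b.2 : ℕ) : ℤ), ?_, ?_, ?_⟩
      · rw [abs_le] at h1 ⊢
        push_cast
        have : ((r : ℤ) + 1) * ((R : ℤ) - 1) = r * ((R : ℤ) - 1) + (R - 1) := by ring
        rw [this]
        constructor <;> omega
      · rw [abs_le] at h2 ⊢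
        push_cast
        have : ((r : ℤ) + 1) * ((R : ℤ) - 1) = r * ((R : ℤ) - 1) + (R - 1) := by ring
        rw [this]
        constructor <;> omega
      · rw [h3] at e1 e2
        simp only at e1 e2
        refine Prod.ext ?_ ?_
        · simp only
          push_cast
          linear_combination -e1
        · simp only
          push_cast
          linear_combination -e2

/-- neighbouring blocks -/
def nr (q : ℕ) (t j : ZMod q × ZMod q) : Prop :=
  ∃ e₁ e₂ : ℤ, |e₁| ≤ 1 ∧ |e₂| ≤ 1 ∧ j = (t.1 + (e₁ : ZMod q), t.2 + (e₂ : ZMod q))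

theorem mem_Nb_nr {q : ℕ} [NeZero q] (c : ℕ) (f t : ZMod q × ZMod q)
    (h : t ∈ Nb (nr q) c {f}) : ∃ e₁ e₂ : ℤ, |e₁| ≤ c ∧ |e₂| ≤ c ∧
      t = (f.1 + (e₁ : ZMod q), f.2 + (e₂ : ZMod q)) := by
  induction c generalizing t with
  | zero =>
    have h1 : t = f := by simpa [Nb] using h
    exact ⟨0, 0, by simp, by simp, by simp [h1]⟩
  | succ c ih =>
    unfold Nb at h
    rw [Finset.mem_union, Finset.mem_filter] at h
    rcases h with h | ⟨-, x, hx, a, b, ha, hb, hab⟩
    · obtain ⟨e₁, e₂, h1, h2, h3⟩ := ih t h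
      exact ⟨e₁, e₂, by push_cast; linarith, by push_cast; linarith, h3⟩
    · obtain ⟨e₁, e₂, h1, h2, h3⟩ := ih x hx
      refine ⟨e₁ + a, e₂ + b, ?_, ?_, ?_⟩
      · push_cast
        exact (abs_add_le _ _).trans (add_le_add h1 ha)
      · push_cast
        exact (abs_add_le _ _).trans (add_le_add h2 hb)
      · rw [hab, h3]
        simp only [Int.cast_add, add_assoc]

/-- **B4.** -/
theorem geo : StmGeo := by
  intro R L s r _ hR hrs hL
  have hs : 1 ≤ s := by
    have : 1 * 1 ≤ (2 * r + 2) * R := Nat.mul_le_mul (by omega) hR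
    omega
  obtain ⟨hq, hq1, hq2⟩ := facts hs hL
  have hne : NeZero (L / s) := ⟨by omega⟩
  have hsz : ∀ a : ℤ, a ≤ (2 * r + 1) * ((R : ℤ) - 1) → a < s := by
    intro a ha
    have h1 : ((2 * r + 2) * R : ℤ) ≤ s := by exact_mod_cast hrs
    have h2 : (1 : ℤ) ≤ R := by exact_mod_cast hR
    have h3 : (0 : ℤ) ≤ r := Int.natCast_nonneg _
    nlinarith
  refine ⟨ZMod (L / s) × ZMod (L / s), inferInstance, inferInstance,
    fun t => Finset.univ.filter fun u : Site L => bl L s u.1 = t.1 ∧ bl L s u.2 = t.2,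
    nr (L / s), fun f => (c1 L s f.1, c1 L s f.2), ?_, ?_, ?_, ?_, ?_, ?_, ?_⟩
  · rw [Fintype.card_prod, ZMod.card, ← pow_two]
    exact Nat.pow_le_pow_left (Nat.div_le_self L s) 2
  · intro x
    exact ⟨(bl L s x.1, bl L s x.2), by simp⟩
  · intro t j htj
    rw [Finset.disjoint_left]
    intro u hu hu'
    rw [Finset.mem_filter] at hu hu'
    exact htj (Prod.ext (hu.2.1.symm.trans hu'.2.1) (hu.2.2.symm.trans hu'.2.2))
  · rintro t j ⟨e₁, e₂, h1, h2, h3⟩
    refine ⟨-e₁, -e₂, by rwa [abs_neg], by rwa [abs_neg], ?_⟩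
    rw [h3]
    refine Prod.ext ?_ ?_
    · simp
    · simp
  · intro t
    have h1 : (Finset.univ.filter fun j => nr (L / s) t j) ⊆
        (Finset.Icc (-1 : ℤ) 1 ×ˢ Finset.Icc (-1 : ℤ) 1).image fun e : ℤ × ℤ =>
          (t.1 + (e.1 : ZMod (L / s)), t.2 + (e.2 : ZMod (L / s))) := by
      intro j hj
      obtain ⟨-, e₁, e₂, h1, h2, h3⟩ := Finset.mem_filter.1 hj
      rw [Finset.mem_image]
      rw [abs_le] at h1 h2
      exact ⟨(e₁, e₂), by rw [Finset.mem_product, Finset.mem_Icc, Finset.mem_Icc]; exact ⟨h1, h2⟩,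
        h3.symm⟩
    refine (Finset.card_le_card h1).trans (Finset.card_image_le.trans ?_)
    rw [Finset.card_product]
    simp
  · intro t j _ hn
    rw [Finset.disjoint_left]
    intro v hv hv'
    obtain ⟨u, hu, z₁, z₂, h1, h2, h3⟩ := mem_Nb hR r _ v hv
    obtain ⟨u', hu', w₁, w₂, g1, g2, g3⟩ := mem_Nb hR (r + 1) _ v hv'
    apply hn
    rw [Finset.mem_filter] at hu hu'
    rw [h3] at g3
    have k1 := congrArg Prod.fst g3
    have k2 := congrArg Prod.snd g3
    simp only at k1 k2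
    have hab : ∀ a b : ℤ, |a| ≤ r * ((R : ℤ) - 1) → |b| ≤ (r + 1 : ℕ) * ((R : ℤ) - 1) →
        |a - b| < s := by
      intro a b ha hb
      apply hsz
      refine (abs_sub _ _).trans ?_
      push_cast at hb
      linarith
    obtain ⟨e₁, he₁, he₁'⟩ := lemA hs hL u.1 (z₁ - w₁) (hab _ _ h1 g1)
    obtain ⟨e₂, he₂, he₂'⟩ := lemA hs hL u.2 (z₂ - w₂) (hab _ _ h2 g2)
    refine ⟨e₁, e₂, he₁, he₂, ?_⟩
    have m1 : u.1 + ((z₁ - w₁ : ℤ) : ZMod L) = u'.1 := by
      push_cast
      linear_combination k1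
    have m2 : u.2 + ((z₂ - w₂ : ℤ) : ZMod L) = u'.2 := by
      push_cast
      linear_combination k2
    rw [m1, hu.2.1, hu'.2.1] at he₁'
    rw [m2, hu.2.2, hu'.2.2] at he₂'
    exact Prod.ext he₁' he₂'
  · intro f u hu
    unfold hole at hu
    rw [Finset.mem_biUnion] at hu
    obtain ⟨t, ht, hu⟩ := hu
    rw [Finset.mem_biUnion] at ht
    obtain ⟨f', hf', ht⟩ := ht
    rw [Finset.mem_singleton] at hf'
    subst hf'
    obtain ⟨a₁, a₂, ha₁, ha₂, ht'⟩ := mem_Nb_nr 10 f' t ht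
    obtain ⟨v, hv, z₁, z₂, h1, h2, h3⟩ := mem_Nb hR (r + 1) _ u hu
    rw [Finset.mem_filter] at hv
    have hb : ∀ a : ℤ, |a| ≤ (r + 1 : ℕ) * ((R : ℤ) - 1) → |a| < s := by
      intro a ha
      apply hsz
      have h2 : (1 : ℤ) ≤ R := by exact_mod_cast hR
      have h3 : (0 : ℤ) ≤ r := Int.natCast_nonneg _
      push_cast at ha
      nlinarith
    obtain ⟨e₁, he₁, he₁'⟩ := lemA hs hL v.1 z₁ (hb _ h1)
    obtain ⟨e₂, he₂, he₂'⟩ := lemA hs hL v.2 z₂ (hb _ h2)
    have n1 : bl L s u.1 = f'.1 + ((a₁ + e₁ : ℤ) : ZMod (L / s)) := by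
      rw [h3]
      simp only
      rw [he₁', hv.2.1, ht']
      push_cast
      ring
    have n2 : bl L s u.2 = f'.2 + ((a₂ + e₂ : ℤ) : ZMod (L / s)) := by
      rw [h3]
      simp only
      rw [he₂', hv.2.2, ht']
      push_cast
      ring
    obtain ⟨y₁, hy₁⟩ := lemB hs hL u.1 f'.1 (a₁ + e₁)
      ((abs_add_le _ _).trans (by push_cast at ha₁; linarith)) n1
    obtain ⟨y₂, hy₂⟩ := lemB hs hL u.2 f'.2 (a₂ + e₂)
      ((abs_add_le _ _).trans (by push_cast at ha₂; linarith)) n2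
    exact ⟨(y₁, y₂), Prod.ext hy₁ hy₂⟩

end Pool.Agent.N152.FF
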